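import Pool.Agent.V11231.IXF.Fin
import Pool.Agent.V11231.IXF.Two

/-!
# 3SUM-Indexing: data structures with unreliable negations

The definitions used in the statement are in `Pool/Agent/V11231/IXF/Defs.lean` (`LiteralIndex`: data
structures for two sets of numbers, given by their presence bits, whose cells contain nondecreasing
real functions of these bits and of their negations, with adaptive queries; `Fast`: the number of
places read; `Yes`, `yesProb`, `faultyYesProb`: the answer yes and its probability, without faults
and if each negated bit is stuck at `0` independently with probability `1 / D`; `Small`,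
`Represented`). They use `literals` from `Pool/Agent/V11231/FLT/Slot.lean`.

Idea of the proof. For the lower bound for monotone data structures of the starting library
(`H525R4`), replace a number `a` by the faulty positions among `2 K a, ..., 2 K a + K - 1`, where
`K = 5 D ^ 2`, and the query `z` by `2 K z + K - 1`. If `z = a + b` then the classes of `a` and `b`
contain faulty positions with the right sum, except with small probability. On such inputs faults
only concern bits that are `1`, so for fixed faults one gets a monotone data structure for the small
sets.
-/

set_option autoImplicit false

namespace Pool.Agent.Results.MP_e016b3_lc.FaultyNegations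

open Pool.Agent.V11231.IXF

/-- (1) Let `D, t ≥ 1`, `U ≥ n ^ 2` and `10 ^ 6 D t log₂ (5 (n + r)) ≤ n`. Let a finite family of
data structures with `s` cells and `2 r` free cells, whose cells are computed from the presence bits
of two sets of numbers below `U` and from the negations of these bits, and whose queries read at
most `t` places, answer each query `z` to sets with at most `n` elements with yes

* with probability at least `4 / 5` if `z` is the sum of an element of the first set and an element
  of the second set, even if each negated bit is stuck at `0` independently with probability
  `1 / D`,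
* with probability at most `1 / 4`, without faults, otherwise.

Then `n ^ 2 ≤ 10 ^ 10 D ^ 2 s t log₂ (5 (n + r))`.

(2) With reliable negations two cells, both of which are read, suffice for all pairs of sets. -/
theorem result :
    (∀ n U s r t D : ℕ, 1 ≤ t → 1 ≤ D → n ^ 2 ≤ U →
      10 ^ 6 * D * t * Real.logb 2 (5 * (n + r)) ≤ n →
      ∀ (R : Type) [Fintype R] [Nonempty R] (C : R → LiteralIndex U s r), (∀ ρ, (C ρ).Fast t) →
      (∀ x : Bool × Fin U → Bool, Small n x → ∀ z : ℤ, Represented x z →
        4 / 5 ≤ faultyYesProb C D x z) →
      (∀ x : Bool × Fin U → Bool, Small n x → ∀ z : ℤ, ¬ Represented x z →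
        yesProb C x z ≤ 1 / 4) →
      (n : ℝ) ^ 2 ≤ 10 ^ 10 * D ^ 2 * s * t * Real.logb 2 (5 * (n + r))) ∧
    (∀ U : ℕ, ∃ C : LiteralIndex U 2 0, C.Fast 2 ∧
      ∀ (x : Bool × Fin U → Bool) (z : ℤ), C.Yes x ∅ z ↔ Represented x z) :=
  ⟨fun _ _ _ _ _ _ ht hD hU hn _ _ _ C hC h1 h2 => index_fault ht hD hU hn C hC h1 h2,
    two_cells⟩

end Pool.Agent.Results.MP_e016b3_lc.FaultyNegations
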